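import Pool.Agent.Helper46.KG.Defs

/-!
MP_0f21ab_al, packet S: facts on supersolvable groups.
-/

set_option autoImplicit false

namespace Pool.Agent.Helper89.KG

universe u

open Helper46.KG
open scoped commutatorElement

theorem stS1 : StS1.{u} := by
  intro G _ N _ ⟨n, H, h0, hn, hnor, hs⟩
  refine ⟨n, fun i => (H i).map (QuotientGroup.mk' N), ?_, ?_, ?_, ?_⟩
  · simp only
    rw [h0, Subgroup.map_bot]
  · simp only
    rw [hn]
    exact Subgroup.map_top_of_surjective _ (QuotientGroup.mk'_surjective N)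
  · intro i
    exact (hnor i).map _ (QuotientGroup.mk'_surjective N)
  · intro i hi
    obtain ⟨g, hg⟩ := hs i hi
    refine ⟨QuotientGroup.mk' N g, ?_⟩
    simp only
    rw [hg, Subgroup.map_sup, MonoidHom.map_zpowers]

/-- the image of the next term of the chain is cyclic -/
theorem map_next {G : Type u} [Group G] (A : Subgroup G) [A.Normal] (g : G) :
    (A ⊔ Subgroup.zpowers g).map (QuotientGroup.mk' A) =
      Subgroup.zpowers (QuotientGroup.mk' A g) := by
  rw [Subgroup.map_sup, MonoidHom.map_zpowers, QuotientGroup.map_mk'_self, bot_sup_eq]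

theorem stS2 : StS2.{u} := by
  classical
  intro G _ _ N hN ⟨n, H, h0, hn, hnor, hs⟩ hne
  have hex : ∃ i, H i ⊓ N ≠ ⊥ := ⟨n, by rw [hn, top_inf_eq]; exact hne⟩
  obtain ⟨j, hj1, hj2, hjn⟩ : ∃ j, H j ⊓ N = ⊥ ∧ H (j + 1) ⊓ N ≠ ⊥ ∧ j < n := by
    have h1 := Nat.find_spec hex
    have h2 : Nat.find hex ≠ 0 := by
      intro h
      rw [h, h0, bot_inf_eq] at h1
      exact h1 rfl
    obtain ⟨j, hj⟩ := Nat.exists_eq_succ_of_ne_zero h2
    refine ⟨j, ?_, ?_, ?_⟩
    · by_contra h
      exact Nat.find_min hex (by omega) h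
    · rw [hj] at h1
      exact h1
    · have : Nat.find hex ≤ n := Nat.find_min' hex (by rw [hn, top_inf_eq]; exact hne)
      omega
  obtain ⟨g, hg⟩ := hs j hjn
  haveI := hnor j
  haveI := hnor (j + 1)
  set D : Subgroup G := H (j + 1) ⊓ N with hD
  have hDn : D.Normal := Subgroup.normal_inf_normal _ _
  -- `D` is cyclic
  have hmem : ∀ x ∈ H (j + 1), QuotientGroup.mk' (H j) x ∈
      Subgroup.zpowers (QuotientGroup.mk' (H j) g) := by
    intro x hx
    rw [← map_next, ← hg]
    exact Subgroup.mem_map_of_mem _ hx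
  let φ : D →* Subgroup.zpowers (QuotientGroup.mk' (H j) g) :=
    ((QuotientGroup.mk' (H j)).comp D.subtype).codRestrict _ (fun x => hmem x.1 x.2.1)
  have hφ : Function.Injective φ := by
    rw [injective_iff_map_eq_one]
    intro x hx
    have h1 : QuotientGroup.mk' (H j) x.1 = 1 := congrArg Subtype.val hx
    have h2 : x.1 ∈ H j := by
      rwa [QuotientGroup.mk'_apply, QuotientGroup.eq_one_iff] at h1
    have h3 : x.1 ∈ H j ⊓ N := ⟨h2, x.2.2⟩
    rw [hj1, Subgroup.mem_bot] at h3
    exact Subtype.ext h3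
  haveI hcyc : IsCyclic D := isCyclic_of_injective φ hφ
  have hcard : Nat.card D ≠ 1 := by
    intro h
    exact hj2 ((Subgroup.card_eq_one (H := D)).1 h)
  obtain ⟨p, hp, hpd⟩ := Nat.exists_prime_and_dvd hcard
  haveI : Fact p.Prime := ⟨hp⟩
  haveI : Fintype D := Fintype.ofFinite D
  obtain ⟨d, hd⟩ := exists_prime_orderOf_dvd_card' (G := D) p hpd
  have huniq : ∀ z : D, z ^ p = 1 → z ∈ Subgroup.zpowers d := by
    have hS : (Finset.univ.filter (fun z : D => z ∈ Subgroup.zpowers d)) =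
        Finset.univ.filter (fun z : D => z ^ p = 1) := by
      apply Finset.eq_of_subset_of_card_le
      · intro z hz
        rw [Finset.mem_filter] at hz ⊢
        refine ⟨Finset.mem_univ _, ?_⟩
        obtain ⟨k, rfl⟩ := hz.2
        simp only
        rw [← zpow_natCast, ← zpow_mul, mul_comm, zpow_mul, zpow_natCast, ← hd,
          pow_orderOf_eq_one, one_zpow]
      · have h1 : (Finset.univ.filter (fun z : D => z ^ p = 1)).card ≤ p :=
          IsCyclic.card_pow_eq_one_le hp.pos
        have h2 : (Finset.univ.filter (fun z : D => z ∈ Subgroup.zpowers d)).card = p := by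
          rw [← hd, ← Nat.card_zpowers, Nat.card_eq_fintype_card, Fintype.card_subtype]
        omega
    intro z hz
    have : z ∈ Finset.univ.filter (fun z : D => z ^ p = 1) := by simp [hz]
    rw [← hS] at this
    simpa using this
  refine ⟨(Subgroup.zpowers d).map D.subtype, ?_, ?_, ?_⟩
  · rintro x ⟨z, _, rfl⟩
    exact z.2.2
  · constructor
    rintro x ⟨z, hz, rfl⟩ y
    have hc : y * (z : G) * y⁻¹ ∈ D := hDn.conj_mem _ z.2 y
    refine ⟨⟨y * z * y⁻¹, hc⟩, ?_, rfl⟩
    apply huniq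
    apply Subtype.ext
    have hz1 : (z : G) ^ p = 1 := by
      obtain ⟨k, rfl⟩ := hz
      have : (d ^ k) ^ p = 1 := by
        rw [← zpow_natCast, ← zpow_mul, mul_comm, zpow_mul, zpow_natCast, ← hd,
          pow_orderOf_eq_one, one_zpow]
      exact congrArg Subtype.val this
    have h1 : (y * (z : G) * y⁻¹) ^ p = 1 := by
      rw [conj_pow, hz1, mul_one, mul_inv_cancel]
    exact h1
  · rw [Subgroup.card_subtype, Nat.card_zpowers, hd]
    exact hp

theorem comm_le_cent {Q : Type u} [Group Q] (g : Q) (hn : (Subgroup.zpowers g).Normal) :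
    commutator Q ≤ Subgroup.centralizer {g} := by
  rw [commutator_def, Subgroup.commutator_le]
  have hpow : ∀ x : Q, ∃ a : ℤ, x * g * x⁻¹ = g ^ a := by
    intro x
    obtain ⟨a, ha⟩ := Subgroup.mem_zpowers_iff.1 (hn.conj_mem g (Subgroup.mem_zpowers g) x)
    exact ⟨a, ha.symm⟩
  have key : ∀ x y : Q, (x * y) * g * (x * y)⁻¹ = (y * x) * g * (y * x)⁻¹ := by
    intro x y
    obtain ⟨a, ha⟩ := hpow x
    obtain ⟨b, hb⟩ := hpow y
    have h1 : (x * y) * g * (x * y)⁻¹ = g ^ (a * b) := by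
      have : (x * y) * g * (x * y)⁻¹ = x * (y * g * y⁻¹) * x⁻¹ := by group
      rw [this, hb, ← conj_zpow, ha, ← zpow_mul]
    have h2 : (y * x) * g * (y * x)⁻¹ = g ^ (a * b) := by
      have : (y * x) * g * (y * x)⁻¹ = y * (x * g * x⁻¹) * y⁻¹ := by group
      rw [this, ha, ← conj_zpow, hb, ← zpow_mul, mul_comm]
    rw [h1, h2]
  intro x _ y _
  rw [Subgroup.mem_centralizer_singleton_iff]
  have h := key x⁻¹ y⁻¹
  rw [commutatorElement_def]
  have h3 : g = (x * y * x⁻¹ * y⁻¹) * g * (x * y * x⁻¹ * y⁻¹)⁻¹ := by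
    have h4 : (x * y) * ((x⁻¹ * y⁻¹) * g * (x⁻¹ * y⁻¹)⁻¹) * (x * y)⁻¹ =
        (x * y * x⁻¹ * y⁻¹) * g * (x * y * x⁻¹ * y⁻¹)⁻¹ := by group
    have h5 : (x * y) * ((y⁻¹ * x⁻¹) * g * (y⁻¹ * x⁻¹)⁻¹) * (x * y)⁻¹ = g := by group
    rw [← h4, h, h5]
  have h6 : (x * y * x⁻¹ * y⁻¹) * g = g * (x * y * x⁻¹ * y⁻¹) := by
    conv_rhs => rw [h3]
    group
  first
    | exact h6
    | exact h6.symm

theorem stS3 : StS3.{u} := by
  intro G _ ⟨n, H, h0, hn, hnor, hs⟩
  have key : ∀ i < n, ∀ c ∈ commutator G, ∀ h ∈ H (i + 1), c * h * c⁻¹ * h⁻¹ ∈ H i := by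
    intro i hi c hc h hh
    obtain ⟨g, hg⟩ := hs i hi
    haveI := hnor i
    haveI := hnor (i + 1)
    have hnz : (Subgroup.zpowers (QuotientGroup.mk' (H i) g)).Normal := by
      rw [← map_next, ← hg]
      exact (hnor (i + 1)).map _ (QuotientGroup.mk'_surjective _)
    have h1 := comm_le_cent _ hnz
    have h2 : QuotientGroup.mk' (H i) c ∈ commutator (G ⧸ H i) := by
      have : (commutator G).map (QuotientGroup.mk' (H i)) ≤ commutator (G ⧸ H i) := by
        rw [commutator_def, Subgroup.map_commutator, commutator_def]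
        exact Subgroup.commutator_mono le_top le_top
      exact this (Subgroup.mem_map_of_mem _ hc)
    have h3 := h1 h2
    rw [Subgroup.mem_centralizer_singleton_iff] at h3
    have h4 : QuotientGroup.mk' (H i) h ∈ Subgroup.zpowers (QuotientGroup.mk' (H i) g) := by
      rw [← map_next, ← hg]
      exact Subgroup.mem_map_of_mem _ hh
    obtain ⟨k, hk⟩ := Subgroup.mem_zpowers_iff.1 h4
    have h5 : Commute (QuotientGroup.mk' (H i) c) (QuotientGroup.mk' (H i) h) := by
      rw [← hk]
      apply Commute.zpow_right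
      first
        | exact h3
        | exact h3.symm
    have h6 : QuotientGroup.mk' (H i) (c * h * c⁻¹ * h⁻¹) = 1 := by
      rw [map_mul, map_mul, map_mul, map_inv, map_inv, h5.eq]
      group
    rwa [QuotientGroup.mk'_apply, QuotientGroup.eq_one_iff] at h6
  rw [nilpotent_iff_finite_ascending_central_series]
  refine ⟨n, fun i => (H (min i n)).subgroupOf (commutator G), ⟨?_, ?_⟩, ?_⟩
  · simp only [Nat.zero_min]
    rw [h0]
    exact Subgroup.bot_subgroupOf _
  · intro x i hx g
    simp only [Subgroup.mem_subgroupOf] at hx ⊢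
    rcases Nat.lt_or_ge i n with hi | hi
    · rw [Nat.min_eq_left (by omega)] at hx
      rw [Nat.min_eq_left (by omega)]
      have h1 := key i hi g.1 g.2 x.1 hx
      have h2 := (H i).inv_mem h1
      have h3 : ((g : G) * (x : G) * (g : G)⁻¹ * (x : G)⁻¹)⁻¹ =
          (x : G) * (g : G) * (x : G)⁻¹ * (g : G)⁻¹ := by group
      rw [h3] at h2
      exact h2
    · rw [Nat.min_eq_right hi, hn]
      trivial
  · simp only [min_self]
    rw [hn]
    exact Subgroup.top_subgroupOf _

end Pool.Agent.Helper89.KG
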